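import Mathlib

set_option autoImplicit false
set_option maxHeartbeats 4000000

namespace Pool.Agent.Results.MP_cf17a0_co.FirstCases

open Polynomial


/-- the product of the numerators is divisible by the product of the denominators -/
theorem dvd_gauss {R : Type*} [CommRing R] (y : R) (k n : ℕ) :
    (∏ j ∈ Finset.range k, (1 - y ^ (j + 1))) ∣ ∏ j ∈ Finset.range k, (1 - y ^ (n + (j + 1))) := by
  induction k generalizing n with
  | zero => simp
  | succ k ih =>
    induction n with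
    | zero => simp
    | succ n ihn =>
      have h1 : ∏ j ∈ Finset.range (k + 1), (1 - y ^ (n + 1 + (j + 1)))
          = (∏ j ∈ Finset.range k, (1 - y ^ (n + 1 + (j + 1)))) * (1 - y ^ (k + 1))
            + y ^ (k + 1) * ∏ j ∈ Finset.range (k + 1), (1 - y ^ (n + (j + 1))) := by
        rw [Finset.prod_range_succ, Finset.prod_range_succ' (fun j => (1 - y ^ (n + (j + 1))))]
        have : ∏ x ∈ Finset.range k, (1 - y ^ (n + (x + 1 + 1)))
            = ∏ x ∈ Finset.range k, (1 - y ^ (n + 1 + (x + 1))) :=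
          Finset.prod_congr rfl fun x _ => by ring_nf
        rw [this]
        ring
      rw [h1]
      refine dvd_add ?_ (Dvd.dvd.mul_left ihn _)
      rw [Finset.prod_range_succ]
      exact mul_dvd_mul (ih _) dvd_rfl

theorem dvd_all {R : Type*} [CommRing R] (x : R) (k n a : ℕ) :
    (∏ v ∈ Finset.Icc 1 k, (1 - x ^ v)) ∣ ∏ v ∈ Finset.Icc 1 k, (1 - x ^ (a * (n + v))) := by
  have e : ∀ f : ℕ → R, ∏ v ∈ Finset.Icc 1 k, f v = ∏ j ∈ Finset.range k, f (j + 1) := by
    intro f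
    rw [Finset.range_eq_Ico, Finset.prod_Ico_add' (fun j => f j) 0 k 1]
    simp only [zero_add]
    rfl
  rw [e, e]
  have h2 : ∏ j ∈ Finset.range k, (1 - x ^ (a * (n + (j + 1))))
      = ∏ j ∈ Finset.range k, (1 - (x ^ a) ^ (n + (j + 1))) :=
    Finset.prod_congr rfl fun j _ => by rw [pow_mul]
  rw [h2]
  refine dvd_trans ?_ (dvd_gauss (x ^ a) k n)
  refine Finset.prod_dvd_prod_of_dvd _ _ fun j _ => ?_
  rw [← pow_mul, mul_comm, pow_mul]
  simpa using sub_dvd_pow_sub_pow (1 : R) (x ^ (j + 1)) a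



theorem reverse_one_add_pow (s : ℕ) : (1 + X ^ s : ℚ[X]).reverse = 1 + X ^ s := by
  have h : (1 + X ^ s : ℚ[X]) = X ^ s + C 1 := by simp [add_comm]
  have hd : (1 + X ^ s : ℚ[X]).natDegree = s := by
    rw [h]; exact natDegree_X_pow_add_C
  ext i
  rw [coeff_reverse, hd]
  by_cases hi : i ≤ s
  · rw [revAt_le hi]
    simp only [coeff_add, coeff_one, coeff_X_pow]
    have e1 : (s - i = 0) ↔ (i = s) := by omega
    have e2 : (s - i = s) ↔ (i = 0) := by omega
    simp only [e1, e2]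
    rw [add_comm]
  · rw [revAt_eq_self_of_lt (by omega)]

theorem reverse_one_sub_pow (s : ℕ) (hs : 0 < s) : (1 - X ^ s : ℚ[X]).reverse = -(1 - X ^ s) := by
  have h : (1 - X ^ s : ℚ[X]) = -(X ^ s - C 1) := by simp
  have hd : (1 - X ^ s : ℚ[X]).natDegree = s := by
    rw [h, natDegree_neg]; exact natDegree_X_pow_sub_C
  ext i
  rw [coeff_reverse, hd]
  by_cases hi : i ≤ s
  · rw [revAt_le hi]
    simp only [coeff_sub, coeff_neg, coeff_one, coeff_X_pow]
    have e1 : (s - i = 0) ↔ (i = s) := by omega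
    have e2 : (s - i = s) ↔ (i = 0) := by omega
    simp only [e1, e2]
    ring
  · rw [revAt_eq_self_of_lt (by omega)]
    have h1 : ¬ i = 0 := by omega
    have h2 : ¬ i = s := by omega
    simp [coeff_one, coeff_X_pow, h1, h2]

theorem reverse_three : (1 + X + X ^ 2 : ℚ[X]).reverse = 1 + X + X ^ 2 := by
  have hd : (1 + X + X ^ 2 : ℚ[X]).natDegree = 2 := by
    compute_degree!
  ext i
  rw [coeff_reverse, hd]
  by_cases hi : i ≤ 2
  · rw [revAt_le hi]
    interval_cases i <;> simp [coeff_one, coeff_X, coeff_X_pow]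
  · rw [revAt_eq_self_of_lt (by omega)]



/-- coefficient function of (1+q+q^2)/((1-q^4)(1-q^6)) -/
def g (t : ℤ) : ℤ :=
  if t < 0 then 0 else if t % 2 = 0 then t / 6 + 1
  else t / 12 + 1 - (if t % 12 = 3 then 1 else 0)

theorem g_neg {t : ℤ} (h : t < 0) : g t = 0 := by simp [g, h]
theorem g_even {t : ℤ} (h : 0 ≤ t) (h2 : t % 2 = 0) : g t = t / 6 + 1 := by
  have : ¬ t < 0 := by omega
  simp [g, this, h2]

theorem g_odd {t : ℤ} (h : 0 ≤ t) (h2 : t % 2 = 1) :
    g t = t / 12 + 1 - (if t % 12 = 3 then 1 else 0) := by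
  have h1 : ¬ t < 0 := by omega
  have h3 : ¬ t % 2 = 0 := by omega
  simp only [g, h1, h3, if_false]

def c (s A a t : ℤ) : ℤ :=
  g t + s * g (t - A) - s * g (t - A - a) + s * g (t - A - 2 * a) - s * g (t - A - 3 * a)
    - g (t - 2 * A - a) + g (t - 2 * A - 2 * a)

theorem g_rec (t : ℤ) : g t - g (t - 4) - g (t - 6) + g (t - 10)
    = (if t = 0 then 1 else 0) + (if t = 1 then 1 else 0) + (if t = 2 then 1 else 0) := by
  rcases lt_or_ge t 0 with h | h
  · rw [g_neg h, g_neg (t := t - 4) (by omega), g_neg (t := t - 6) (by omega),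
      g_neg (t := t - 10) (by omega)]
    split_ifs <;> omega
  rcases lt_or_ge t 10 with h1 | h1
  · interval_cases t <;> decide
  · rcases Int.emod_two_eq_zero_or_one t with h2 | h2
    · rw [g_even (t := t) (by omega) (by omega), g_even (t := t - 4) (by omega) (by omega),
        g_even (t := t - 6) (by omega) (by omega), g_even (t := t - 10) (by omega) (by omega),
        if_neg (by omega), if_neg (by omega), if_neg (by omega)]
      omega
    · rw [g_odd (t := t) (by omega) (by omega), g_odd (t := t - 4) (by omega) (by omega),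
        g_odd (t := t - 6) (by omega) (by omega), g_odd (t := t - 10) (by omega) (by omega),
        if_neg (c := t = 0) (by omega), if_neg (c := t = 1) (by omega), if_neg (c := t = 2) (by omega)]
      split_ifs <;> omega

def chk (s : ℤ) (A a : ℕ) : Bool :=
  (List.range (2 * A + 3 * a)).all fun t =>
    !(decide (2 * t + 8 ≤ 4 * A + 6 * a)) || decide (0 ≤ c s (A : ℤ) (a : ℤ) (t : ℤ))

theorem chk_odd : (List.range 14).all (fun a => (List.range 28).all fun N =>
    !(decide (2 * (a * N) + 5 * a < 37 ∧ a % 2 = 1 ∧ (a * N) % 2 = 1 ∧ a ≤ a * N)) ||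
      chk 1 (a * N) a) = true := by
  decide +kernel

theorem chk_even : (List.range 14).all (fun a => (List.range 28).all fun N =>
    !(decide (a * N < 28 ∧ a % 2 = 1 ∧ (a * N) % 2 = 0 ∧ 2 * a ≤ a * N)) ||
      chk (-1) (a * N) a) = true := by
  decide +kernel

theorem chk_spec {s : ℤ} {A a : ℕ} (h : chk s A a = true) {t : ℕ} (ht : 2 * t + 8 ≤ 4 * A + 6 * a) :
    0 ≤ c s (A : ℤ) (a : ℤ) (t : ℤ) := by
  unfold chk at h
  rw [List.all_eq_true] at h
  have := h t (List.mem_range.2 (by omega))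
  simpa [ht] using this

theorem c_small_odd (a N : ℕ) (h1 : 2 * (a * N) + 5 * a < 37) (h2 : a % 2 = 1)
    (h3 : (a * N) % 2 = 1) (h4 : a ≤ a * N) (t : ℕ) (ht : 2 * t + 8 ≤ 4 * (a * N) + 6 * a) :
    0 ≤ c 1 ((a * N : ℕ) : ℤ) (a : ℤ) (t : ℤ) := by
  have ha : a < 14 := by omega
  have hN' : N ≤ a * N := Nat.le_mul_of_pos_left N (by omega)
  have hN : N < 28 := by omega
  have h := chk_odd
  rw [List.all_eq_true] at h
  have h' := h a (List.mem_range.2 ha)
  rw [List.all_eq_true] at h'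
  have h'' := h' N (List.mem_range.2 hN)
  rw [decide_eq_true (⟨h1, h2, h3, h4⟩ : _ ∧ _ ∧ _ ∧ _)] at h''
  exact chk_spec (by simpa using h'') ht

theorem c_small_even (a N : ℕ) (h1 : a * N < 28) (h2 : a % 2 = 1)
    (h3 : (a * N) % 2 = 0) (h4 : 2 * a ≤ a * N) (t : ℕ) (ht : 2 * t + 8 ≤ 4 * (a * N) + 6 * a) :
    0 ≤ c (-1) ((a * N : ℕ) : ℤ) (a : ℤ) (t : ℤ) := by
  have ha : a < 14 := by omega
  have hN' : N ≤ a * N := Nat.le_mul_of_pos_left N (by omega)
  have hN : N < 28 := by omega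
  have h := chk_even
  rw [List.all_eq_true] at h
  have h' := h a (List.mem_range.2 ha)
  rw [List.all_eq_true] at h'
  have h'' := h' N (List.mem_range.2 hN)
  rw [decide_eq_true (⟨h1, h2, h3, h4⟩ : _ ∧ _ ∧ _ ∧ _)] at h''
  exact chk_spec (by simpa using h'') ht

noncomputable def G : PowerSeries ℚ := PowerSeries.mk (fun n => ((g n : ℤ) : ℚ))

theorem g_shift (n d : ℕ) :
    (if d ≤ n then ((g ((n - d : ℕ) : ℤ) : ℤ) : ℚ) else 0) = ((g ((n : ℤ) - d) : ℤ) : ℚ) := by
  split_ifs with h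
  · rw [Nat.cast_sub h]
  · rw [g_neg (by omega)]; simp

theorem coeff_G_shift (n d : ℕ) :
    PowerSeries.coeff n (G * PowerSeries.X ^ d) = ((g ((n : ℤ) - d) : ℤ) : ℚ) := by
  rw [PowerSeries.coeff_mul_X_pow', ← g_shift]
  simp [G]

theorem G_mul : G * ((1 - PowerSeries.X ^ 4) * (1 - PowerSeries.X ^ 6))
    = 1 + PowerSeries.X + PowerSeries.X ^ 2 := by
  have e : G * ((1 - PowerSeries.X ^ 4) * (1 - PowerSeries.X ^ 6))
      = G * PowerSeries.X ^ 0 - G * PowerSeries.X ^ 4 - G * PowerSeries.X ^ 6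
        + G * PowerSeries.X ^ 10 := by ring
  rw [e]
  ext n
  simp only [map_add, map_sub, coeff_G_shift]
  have h := g_rec (n : ℤ)
  have h' := congrArg (fun z : ℤ => (z : ℚ)) h
  push_cast at h'
  simp only [Nat.cast_zero, sub_zero, Nat.cast_ofNat]
  rw [h']
  rw [PowerSeries.coeff_one, PowerSeries.coeff_X, PowerSeries.coeff_X_pow]
  have e0 : ((n : ℤ) = 0) ↔ (n = 0) := by omega
  have e1 : ((n : ℤ) = 1) ↔ (n = 1) := by omega
  have e2 : ((n : ℤ) = 2) ↔ (n = 2) := by omega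
  simp only [e0, e1, e2]

theorem series_coeff (s : ℤ) (hs : s = 1 ∨ s = -1) (A a : ℕ) (F : ℚ[X])
    (hF : F * ((1 - X ^ 4) * (1 - X ^ 6)) = (1 + X + X ^ 2) *
      ((1 + C (s : ℚ) * X ^ A) * (1 - C (s : ℚ) * X ^ (A + a)) * (1 + C (s : ℚ) * X ^ (A + 2 * a))
        * (1 - C (s : ℚ) * X ^ (A + 3 * a)))) (t : ℕ) (ht : t < 2 * A + 3 * a) :
    F.coeff t = ((c s A a t : ℤ) : ℚ) := by
  have h1 := congrArg (fun p : ℚ[X] => (p : PowerSeries ℚ)) hF
  simp only [coe_mul, coe_add, coe_sub, coe_one, coe_pow, coe_X, coe_C] at h1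
  have hne : ((1 - PowerSeries.X ^ 4) * (1 - PowerSeries.X ^ 6) : PowerSeries ℚ) ≠ 0 := by
    intro h0
    have := congrArg (fun p : PowerSeries ℚ => PowerSeries.coeff 0 p) h0
    simp at this
  have h2 : (F : PowerSeries ℚ) = G * ((1 + PowerSeries.C (s : ℚ) * PowerSeries.X ^ A)
      * (1 - PowerSeries.C (s : ℚ) * PowerSeries.X ^ (A + a))
      * (1 + PowerSeries.C (s : ℚ) * PowerSeries.X ^ (A + 2 * a))
      * (1 - PowerSeries.C (s : ℚ) * PowerSeries.X ^ (A + 3 * a))) := by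
    apply mul_right_cancel₀ hne
    rw [h1, ← G_mul]
    ring
  have h3 : (F : PowerSeries ℚ) = G * PowerSeries.X ^ 0
      + PowerSeries.C (s : ℚ) * (G * PowerSeries.X ^ A)
      - PowerSeries.C (s : ℚ) * (G * PowerSeries.X ^ (A + a))
      + PowerSeries.C (s : ℚ) * (G * PowerSeries.X ^ (A + 2 * a))
      - PowerSeries.C (s : ℚ) * (G * PowerSeries.X ^ (A + 3 * a))
      - G * PowerSeries.X ^ (2 * A + a) + G * PowerSeries.X ^ (2 * A + 2 * a)
      + (G * (-2 + PowerSeries.X ^ a - PowerSeries.X ^ (2 * a)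
          + PowerSeries.C (s : ℚ) * PowerSeries.X ^ A * (-1 + PowerSeries.X ^ a
            - PowerSeries.X ^ (2 * a) + PowerSeries.X ^ (3 * a))
          + PowerSeries.X ^ (2 * A) * PowerSeries.X ^ (3 * a))) * PowerSeries.X ^ (2 * A + 3 * a) := by
    rw [h2]
    rcases hs with rfl | rfl
    · simp only [Int.cast_one, map_one]; ring
    · simp only [Int.cast_neg, Int.cast_one, map_neg, map_one]; ring
  have h4 : F.coeff t = PowerSeries.coeff t (F : PowerSeries ℚ) := by rw [Polynomial.coeff_coe]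
  rw [h4, h3]
  have h5 : ∀ Q : PowerSeries ℚ, PowerSeries.coeff t (Q * PowerSeries.X ^ (2 * A + 3 * a)) = 0 := by
    intro Q
    rw [PowerSeries.coeff_mul_X_pow', if_neg (by omega)]
  simp only [map_add, map_sub, PowerSeries.coeff_C_mul, coeff_G_shift, h5]
  unfold c
  push_cast
  have e1 : ((t : ℤ) - (A + a)) = t - A - a := by ring
  have e2 : ((t : ℤ) - (A + 2 * a)) = t - A - 2 * a := by ring
  have e3 : ((t : ℤ) - (A + 3 * a)) = t - A - 3 * a := by ring
  have e4 : ((t : ℤ) - (2 * A + a)) = t - 2 * A - a := by ring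
  have e5 : ((t : ℤ) - (2 * A + 2 * a)) = t - 2 * A - 2 * a := by ring
  simp only [e1, e2, e3, e4, e5, sub_zero, add_zero]



theorem g_odd_lb {t : ℤ} (h : 0 ≤ t) (h2 : t % 2 = 1) : t - 3 ≤ 12 * g t ∧ 12 * g t ≤ t + 11 ∧ 0 ≤ g t := by
  have h1 : ¬ t < 0 := by omega
  have h3 : ¬ t % 2 = 0 := by omega
  simp only [g, h1, h3, if_false]
  split_ifs <;> omega
theorem g_even_lb {t : ℤ} (h : 0 ≤ t) (h2 : t % 2 = 0) : t + 2 ≤ 6 * g t ∧ 6 * g t ≤ t + 6 := by
  rw [g_even h h2]; omega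
theorem g_lb {t : ℤ} (h : 0 ≤ t) : (t % 2 = 0 ∧ t + 2 ≤ 6 * g t ∧ 6 * g t ≤ t + 6) ∨
    (t % 2 = 1 ∧ t - 3 ≤ 12 * g t ∧ 12 * g t ≤ t + 11 ∧ 0 ≤ g t) := by
  rcases Int.emod_two_eq_zero_or_one t with h2 | h2
  · exact Or.inl ⟨h2, g_even_lb h h2⟩
  · exact Or.inr ⟨h2, g_odd_lb h h2⟩

theorem c_nonneg_odd (A a t : ℤ) (ha : a % 2 = 1) (ha0 : 0 < a) (hA : A % 2 = 1) (haA : a ≤ A)
    (hbig : 37 ≤ 2 * A + 5 * a) (ht : 2 * t + 8 ≤ 4 * A + 6 * a) (h0 : 0 ≤ t) :
    0 ≤ c 1 A a t := by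
  unfold c
  have e0 := g_lb h0
  rcases lt_or_ge (t - A) 0 with h | h1
  · rw [g_neg h, g_neg (t := t - A - a) (by omega), g_neg (t := t - A - 2 * a) (by omega),
      g_neg (t := t - A - 3 * a) (by omega), g_neg (t := t - 2 * A - a) (by omega),
      g_neg (t := t - 2 * A - 2 * a) (by omega)]
    omega
  have e1 := g_lb h1
  rcases lt_or_ge (t - A - a) 0 with h | h2
  · rw [g_neg h, g_neg (t := t - A - 2 * a) (by omega),
      g_neg (t := t - A - 3 * a) (by omega), g_neg (t := t - 2 * A - a) (by omega),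
      g_neg (t := t - 2 * A - 2 * a) (by omega)]
    omega
  have e2 := g_lb h2
  rcases lt_or_ge (t - A - 2 * a) 0 with h | h3
  · rw [g_neg h,
      g_neg (t := t - A - 3 * a) (by omega), g_neg (t := t - 2 * A - a) (by omega),
      g_neg (t := t - 2 * A - 2 * a) (by omega)]
    omega
  have e3 := g_lb h3
  rcases lt_or_ge (t - A - 3 * a) 0 with h | h4
  · rw [g_neg h]
    rcases lt_or_ge (t - 2 * A - a) 0 with h | h5
    · rw [g_neg h, g_neg (t := t - 2 * A - 2 * a) (by omega)]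
      omega
    have e5 := g_lb h5
    rcases lt_or_ge (t - 2 * A - 2 * a) 0 with h | h6
    · rw [g_neg h]; omega
    have e6 := g_lb h6
    omega
  have e4 := g_lb h4
  rcases lt_or_ge (t - 2 * A - a) 0 with h | h5
  · rw [g_neg h, g_neg (t := t - 2 * A - 2 * a) (by omega)]
    omega
  have e5 := g_lb h5
  rcases lt_or_ge (t - 2 * A - 2 * a) 0 with h | h6
  · rw [g_neg h]; omega
  have e6 := g_lb h6
  omega

theorem c_nonneg_even (A a t : ℤ) (ha : a % 2 = 1) (ha0 : 0 < a) (hA : A % 2 = 0) (haA : 2 * a ≤ A)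
    (hbig : 28 ≤ A) (ht : 2 * t + 8 ≤ 4 * A + 6 * a) (h0 : 0 ≤ t) :
    0 ≤ c (-1) A a t := by
  unfold c
  have e0 := g_lb h0
  rcases lt_or_ge (t - A) 0 with h | h1
  · rw [g_neg h, g_neg (t := t - A - a) (by omega), g_neg (t := t - A - 2 * a) (by omega),
      g_neg (t := t - A - 3 * a) (by omega), g_neg (t := t - 2 * A - a) (by omega),
      g_neg (t := t - 2 * A - 2 * a) (by omega)]
    omega
  have e1 := g_lb h1
  rcases lt_or_ge (t - A - a) 0 with h | h2
  · rw [g_neg h, g_neg (t := t - A - 2 * a) (by omega),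
      g_neg (t := t - A - 3 * a) (by omega), g_neg (t := t - 2 * A - a) (by omega),
      g_neg (t := t - 2 * A - 2 * a) (by omega)]
    omega
  have e2 := g_lb h2
  rcases lt_or_ge (t - A - 2 * a) 0 with h | h3
  · rw [g_neg h,
      g_neg (t := t - A - 3 * a) (by omega), g_neg (t := t - 2 * A - a) (by omega),
      g_neg (t := t - 2 * A - 2 * a) (by omega)]
    omega
  have e3 := g_lb h3
  rcases lt_or_ge (t - A - 3 * a) 0 with h | h4
  · rw [g_neg h]
    rcases lt_or_ge (t - 2 * A - a) 0 with h | h5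
    · rw [g_neg h, g_neg (t := t - 2 * A - 2 * a) (by omega)]
      omega
    have e5 := g_lb h5
    rcases lt_or_ge (t - 2 * A - 2 * a) 0 with h | h6
    · rw [g_neg h]; omega
    have e6 := g_lb h6
    omega
  have e4 := g_lb h4
  rcases lt_or_ge (t - 2 * A - a) 0 with h | h5
  · rw [g_neg h, g_neg (t := t - 2 * A - 2 * a) (by omega)]
    omega
  have e5 := g_lb h5
  rcases lt_or_ge (t - 2 * A - 2 * a) 0 with h | h6
  · rw [g_neg h]; omega
  have e6 := g_lb h6
  omega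


/-- the denominators -/
theorem den_eq : ∏ v ∈ Finset.Icc 1 4, (1 - (-X : ℚ[X]) ^ v)
    = (1 + X) * (1 - X ^ 2) * (1 + X ^ 3) * (1 - X ^ 4) := by
  rw [show Finset.Icc 1 4 = {1, 2, 3, 4} from rfl]
  simp
  ring

theorem num_eq (f : ℕ → ℚ[X]) : ∏ v ∈ Finset.Icc 1 4, f v = f 1 * f 2 * f 3 * f 4 := by
  rw [show Finset.Icc 1 4 = {1, 2, 3, 4} from rfl]
  simp
  ring

/-- the product of the numerators, `s = 1` for `A` odd and `s = -1` for `A` even -/
theorem num_expand (n a : ℕ) (ha : Odd a) (s : ℤ) (hs : (s = 1 ∧ Odd (a * (n + 1))) ∨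
    (s = -1 ∧ Even (a * (n + 1)))) :
    ∏ v ∈ Finset.Icc 1 4, (1 - (-X : ℚ[X]) ^ (a * (n + v))) =
      (1 + C (s : ℚ) * X ^ (a * (n + 1))) * (1 - C (s : ℚ) * X ^ (a * (n + 1) + a))
        * (1 + C (s : ℚ) * X ^ (a * (n + 1) + 2 * a))
        * (1 - C (s : ℚ) * X ^ (a * (n + 1) + 3 * a)) := by
  rw [num_eq]
  have e2 : a * (n + 2) = a * (n + 1) + a := by ring
  have e3 : a * (n + 3) = a * (n + 1) + 2 * a := by ring
  have e4 : a * (n + 4) = a * (n + 1) + 3 * a := by ring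
  rw [e2, e3, e4]
  set A := a * (n + 1) with hA
  rcases hs with ⟨rfl, h⟩ | ⟨rfl, h⟩
  · have o2 : Even (A + a) := h.add_odd ha
    have o3 : Odd (A + 2 * a) := h.add_even (even_two_mul a)
    have o4 : Even (A + 3 * a) := h.add_odd (Odd.mul (by decide) ha)
    rw [h.neg_pow, o2.neg_pow, o3.neg_pow, o4.neg_pow]
    simp
  · have o2 : Odd (A + a) := h.add_odd ha
    have o3 : Even (A + 2 * a) := h.add (even_two_mul a)
    have o4 : Odd (A + 3 * a) := h.add_odd (Odd.mul (by decide) ha)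
    rw [h.neg_pow, o2.neg_pow, o3.neg_pow, o4.neg_pow]
    simp [sub_eq_add_neg]

theorem key (s : ℤ) (hs : s = 1 ∨ s = -1) (A a : ℕ) (hA : 0 < A) (F : ℚ[X])
    (hF : F * ((1 - X ^ 4) * (1 - X ^ 6)) = (1 + X + X ^ 2) *
      ((1 + C (s : ℚ) * X ^ A) * (1 - C (s : ℚ) * X ^ (A + a)) * (1 + C (s : ℚ) * X ^ (A + 2 * a))
        * (1 - C (s : ℚ) * X ^ (A + 3 * a)))) :
    F.reverse = F ∧ F.natDegree + 8 = 4 * A + 6 * a := by
  have r4 := reverse_one_sub_pow 4 (by norm_num)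
  have r6 := reverse_one_sub_pow 6 (by norm_num)
  have hs0 : (s : ℚ) ≠ 0 := by rcases hs with rfl | rfl <;> norm_num
  have hrev : ((1 + C (s : ℚ) * X ^ A) * (1 - C (s : ℚ) * X ^ (A + a)) * (1 + C (s : ℚ) * X ^ (A + 2 * a))
        * (1 - C (s : ℚ) * X ^ (A + 3 * a)) : ℚ[X]).reverse =
      (1 + C (s : ℚ) * X ^ A) * (1 - C (s : ℚ) * X ^ (A + a)) * (1 + C (s : ℚ) * X ^ (A + 2 * a))
        * (1 - C (s : ℚ) * X ^ (A + 3 * a)) := by
    rw [reverse_mul_of_domain, reverse_mul_of_domain, reverse_mul_of_domain]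
    rcases hs with rfl | rfl
    · simp only [Int.cast_one, map_one, one_mul]
      rw [reverse_one_add_pow A, reverse_one_sub_pow (A + a) (by omega),
        reverse_one_add_pow (A + 2 * a), reverse_one_sub_pow (A + 3 * a) (by omega)]
      ring
    · simp only [Int.cast_neg, Int.cast_one, map_neg, map_one, neg_mul, one_mul, sub_neg_eq_add,
        ← sub_eq_add_neg]
      rw [reverse_one_sub_pow A hA, reverse_one_add_pow (A + a),
        reverse_one_sub_pow (A + 2 * a) (by omega), reverse_one_add_pow (A + 3 * a)]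
      ring
  have hne : ((1 - X ^ 4) * (1 - X ^ 6) : ℚ[X]) ≠ 0 := by
    intro h0
    have := congrArg (fun p : ℚ[X] => p.coeff 0) h0
    simp [mul_coeff_zero] at this
  constructor
  · have h1 := congrArg reverse hF
    rw [reverse_mul_of_domain, reverse_mul_of_domain, reverse_mul_of_domain, r4, r6, reverse_three,
      hrev, ← hF] at h1
    have h2 : F.reverse * ((1 - X ^ 4) * (1 - X ^ 6)) = F * ((1 - X ^ 4) * (1 - X ^ 6)) := by
      rw [← h1]; ring
    exact mul_right_cancel₀ hne h2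
  · have hd : ∀ (m : ℕ) (r : ℚ), 0 < m → r ≠ 0 → (1 + C r * X ^ m : ℚ[X]).natDegree = m := by
      intro m r hm hr
      rw [add_comm]
      have : (C r * X ^ m + 1 : ℚ[X]) = C r * X ^ m + C 1 := by simp
      rw [this]
      rw [natDegree_add_C, natDegree_C_mul_X_pow m r hr]
    have hd0 : ∀ (m : ℕ) (r : ℚ), 0 < m → (1 + C r * X ^ m : ℚ[X]) ≠ 0 := by
      intro m r hm h0
      have := congrArg (fun p : ℚ[X] => p.coeff 0) h0
      simp [hm.ne] at this
    have hsub : ∀ m : ℕ, (1 - C (s : ℚ) * X ^ m : ℚ[X]) = 1 + C (-(s : ℚ)) * X ^ m := by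
      intro m; simp [sub_eq_add_neg]
    have e3 : (1 + X + X ^ 2 : ℚ[X]).natDegree = 2 := by compute_degree!
    have e30 : (1 + X + X ^ 2 : ℚ[X]) ≠ 0 := by
      intro h0; rw [h0] at e3; simp at e3
    have hF0 : F ≠ 0 := by
      rintro rfl
      rw [zero_mul, hsub, hsub] at hF
      refine mul_ne_zero e30 ?_ hF.symm
      refine mul_ne_zero (mul_ne_zero (mul_ne_zero ?_ ?_) ?_) ?_ <;> apply hd0 <;> omega
    have h1 := congrArg natDegree hF
    rw [hsub, hsub] at h1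
    have e4 : ((1 - X ^ 4) * (1 - X ^ 6) : ℚ[X]).natDegree = 10 := by compute_degree!
    rw [natDegree_mul hF0 hne, e4, natDegree_mul e30 (by
        refine mul_ne_zero (mul_ne_zero (mul_ne_zero ?_ ?_) ?_) ?_ <;> apply hd0 <;> omega), e3,
      natDegree_mul (by refine mul_ne_zero (mul_ne_zero ?_ ?_) ?_ <;> apply hd0 <;> omega)
        (hd0 _ _ (by omega)),
      natDegree_mul (by refine mul_ne_zero ?_ ?_ <;> apply hd0 <;> omega) (hd0 _ _ (by omega)),
      natDegree_mul (hd0 _ _ (by omega)) (hd0 _ _ (by omega)),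
      hd _ _ (by omega) hs0, hd _ _ (by omega) (neg_ne_zero.2 hs0), hd _ _ (by omega) hs0,
      hd _ _ (by omega) (neg_ne_zero.2 hs0)] at h1
    omega

theorem coeff_nonneg (s : ℤ) (hs : s = 1 ∨ s = -1) (A a : ℕ) (hA : 0 < A) (F : ℚ[X])
    (hF : F * ((1 - X ^ 4) * (1 - X ^ 6)) = (1 + X + X ^ 2) *
      ((1 + C (s : ℚ) * X ^ A) * (1 - C (s : ℚ) * X ^ (A + a)) * (1 + C (s : ℚ) * X ^ (A + 2 * a))
        * (1 - C (s : ℚ) * X ^ (A + 3 * a))))
    (hc : ∀ t : ℕ, 2 * t + 8 ≤ 4 * A + 6 * a → 0 ≤ c s (A : ℤ) (a : ℤ) (t : ℤ)) (i : ℕ) :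
    0 ≤ F.coeff i := by
  obtain ⟨hr, hd⟩ := key s hs A a hA F hF
  have small : ∀ t : ℕ, 2 * t + 8 ≤ 4 * A + 6 * a → 0 ≤ F.coeff t := by
    intro t ht
    rw [series_coeff s hs A a F hF t (by omega)]
    exact_mod_cast hc t ht
  by_cases h1 : 2 * i + 8 ≤ 4 * A + 6 * a
  · exact small i h1
  · by_cases h2 : i ≤ F.natDegree
    · rw [← hr, coeff_reverse, revAt_le h2]
      exact small _ (by omega)
    · rw [coeff_eq_zero_of_natDegree_lt (by omega)]

theorem nonneg4 (n a : ℕ) (ha : Odd a) (i : ℕ) :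
    0 ≤ (((1 + Polynomial.X : Polynomial ℚ) ^ ((4 + 1) / 2) *
          ∏ v ∈ Finset.Icc 1 4, (1 - (-Polynomial.X : Polynomial ℚ) ^ (a * (n + v)))) /
        ∏ v ∈ Finset.Icc 1 4, (1 - (-Polynomial.X : Polynomial ℚ) ^ v)).coeff i := by
  obtain ⟨F', hF'⟩ := dvd_all (-X : ℚ[X]) 4 n a
  have hD : (∏ v ∈ Finset.Icc 1 4, (1 - (-X : ℚ[X]) ^ v)) ≠ 0 := by
    intro h0
    have := congrArg (fun p : ℚ[X] => p.coeff 0) h0
    rw [den_eq] at this
    simp [mul_coeff_zero] at this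
  have hq : ((1 + X : ℚ[X]) ^ ((4 + 1) / 2) * ∏ v ∈ Finset.Icc 1 4, (1 - (-X : ℚ[X]) ^ (a * (n + v)))) /
        ∏ v ∈ Finset.Icc 1 4, (1 - (-X : ℚ[X]) ^ v) = (1 + X) ^ 2 * F' := by
    rw [hF', show (4 + 1) / 2 = 2 from rfl,
      show (1 + X : ℚ[X]) ^ 2 * ((∏ v ∈ Finset.Icc 1 4, (1 - (-X : ℚ[X]) ^ v)) * F')
        = (∏ v ∈ Finset.Icc 1 4, (1 - (-X : ℚ[X]) ^ v)) * ((1 + X) ^ 2 * F') by ring,
      mul_div_cancel_left₀ _ hD]
  rw [hq]
  have ha0 : 0 < a := ha.pos
  have hA : 0 < a * (n + 1) := Nat.mul_pos ha0 (Nat.succ_pos n)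
  have hle : a ≤ a * (n + 1) := Nat.le_mul_of_pos_right a (Nat.succ_pos n)
  have ha2 : a % 2 = 1 := Nat.odd_iff.1 ha
  have h1x : (1 + X : ℚ[X]) ^ 2 ≠ 0 := by
    intro h0
    have := congrArg (fun p : ℚ[X] => p.coeff 0) h0
    simp [pow_two, mul_coeff_zero] at this
  have main : ∀ s : ℤ, ((s = 1 ∧ Odd (a * (n + 1))) ∨ (s = -1 ∧ Even (a * (n + 1)))) →
      ((1 + X) ^ 2 * F') * ((1 - X ^ 4) * (1 - X ^ 6)) = (1 + X + X ^ 2) *
      ((1 + C (s : ℚ) * X ^ (a * (n + 1))) * (1 - C (s : ℚ) * X ^ (a * (n + 1) + a))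
        * (1 + C (s : ℚ) * X ^ (a * (n + 1) + 2 * a))
        * (1 - C (s : ℚ) * X ^ (a * (n + 1) + 3 * a))) := by
    intro s hs
    rw [← num_expand n a ha s hs, hF', den_eq]
    ring
  rcases Nat.even_or_odd (a * (n + 1)) with he | ho
  · have hn : 2 ≤ n + 1 := by
      by_contra hlt
      have : n = 0 := by omega
      subst this
      simp at he
      exact (Nat.not_even_iff_odd.2 ha) he
    have hle2 : 2 * a ≤ a * (n + 1) := by
      calc 2 * a = a * 2 := by ring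
        _ ≤ a * (n + 1) := Nat.mul_le_mul_left a hn
    have he2 : (a * (n + 1)) % 2 = 0 := Nat.even_iff.1 he
    refine coeff_nonneg (-1) (Or.inr rfl) _ a hA _ (main (-1) (Or.inr ⟨rfl, he⟩)) ?_ i
    intro t ht
    rcases lt_or_ge (a * (n + 1)) 28 with h | h
    · exact c_small_even a (n + 1) h ha2 he2 hle2 t ht
    · generalize a * (n + 1) = A at *
      exact c_nonneg_even A a t (by omega) (by omega) (by omega) (by omega) (by omega) (by omega)
        (by omega)
  · have ho2 : (a * (n + 1)) % 2 = 1 := Nat.odd_iff.1 ho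
    refine coeff_nonneg 1 (Or.inl rfl) _ a hA _ (main 1 (Or.inl ⟨rfl, ho⟩)) ?_ i
    intro t ht
    rcases lt_or_ge (2 * (a * (n + 1)) + 5 * a) 37 with h | h
    · exact c_small_odd a (n + 1) h ha2 ho2 hle t ht
    · generalize a * (n + 1) = A at *
      exact c_nonneg_odd A a t (by omega) (by omega) (by omega) (by omega) (by omega) (by omega)
        (by omega)



/-- table of one period for the coefficients in the case k = 5 -/
def T5 : List ℤ := [1, 2, 2, 1, 1, 1, 1, 1, 2, 2, 2, 2, 3, 3, 3, 2, 2, 2, 3, 3, 4, 4, 4, 3, 4, 4, 4, 3, 4, 4, 5, 5, 6, 5, 5, 4, 5, 5, 6, 5, 6, 6, 7, 6, 7, 6, 6, 5, 7, 7, 8, 7, 8, 7, 8, 7, 8, 7, 8, 7]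

/-- coefficient function of (1+q)(1+q+q^2)/((1-q^4)(1-q^6)(1+q^5)) -/
def h5 (t : ℤ) : ℤ :=
  if t < 0 then 0 else (if t % 2 = 0 then 8 else 7) * (t / 60) + T5.getD (t % 60).toNat 0

theorem h5_neg {t : ℤ} (h : t < 0) : h5 t = 0 := by simp [h5, h]

theorem tabE : ∀ r : ℕ, r < 60 → r % 2 = 0 →
    8 * (r : ℤ) - 8 ≤ 60 * T5.getD r 0 ∧ 60 * T5.getD r 0 ≤ 8 * (r : ℤ) + 104 := by decide

theorem tabO : ∀ r : ℕ, r < 60 → r % 2 = 1 →
    7 * (r : ℤ) - 29 ≤ 60 * T5.getD r 0 ∧ 60 * T5.getD r 0 ≤ 7 * (r : ℤ) + 113 := by decide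

theorem h5_even {t : ℤ} (h : 0 ≤ t) (h2 : t % 2 = 0) :
    8 * t - 8 ≤ 60 * h5 t ∧ 60 * h5 t ≤ 8 * t + 104 := by
  have h1 : ¬ t < 0 := by omega
  have h3 := tabE (t % 60).toNat (by omega) (by omega)
  simp only [h5, h1, h2, if_false, if_true]
  generalize T5.getD (t % 60).toNat 0 = y at *
  omega

theorem h5_odd {t : ℤ} (h : 0 ≤ t) (h2 : t % 2 = 1) :
    7 * t - 29 ≤ 60 * h5 t ∧ 60 * h5 t ≤ 7 * t + 113 := by
  have h1 : ¬ t < 0 := by omega
  have h4 : ¬ t % 2 = 0 := by omega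
  have h3 := tabO (t % 60).toNat (by omega) (by omega)
  simp only [h5, h1, h4, if_false]
  generalize T5.getD (t % 60).toNat 0 = y at *
  omega

theorem h5_add {t : ℤ} (h : 0 ≤ t) : h5 (t + 60) = h5 t + (if t % 2 = 0 then 8 else 7) := by
  have h1 : ¬ t < 0 := by omega
  have h2 : ¬ t + 60 < 0 := by omega
  have h3 : (t + 60) % 60 = t % 60 := by omega
  have h4 : (t + 60) / 60 = t / 60 + 1 := by omega
  have h5' : ((t + 60) % 2 = 0) ↔ (t % 2 = 0) := by omega
  simp only [h5, h1, h2, h3, h4, if_false, h5']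
  split_ifs <;> ring

theorem g_add {t : ℤ} (h : 0 ≤ t) : g (t + 60) = g t + (if t % 2 = 0 then 10 else 5) := by
  rcases Int.emod_two_eq_zero_or_one t with h2 | h2
  · rw [g_even (by omega) (by omega), g_even h h2, if_pos h2]
    omega
  · rw [g_odd (by omega) (by omega), g_odd h h2, if_neg (c := t % 2 = 0) (by omega)]
    have : ((t + 60) % 12 = 3) ↔ (t % 12 = 3) := by omega
    simp only [this]
    omega

theorem rec_base : ∀ r : ℕ, r < 65 → h5 (r : ℤ) + h5 ((r : ℤ) - 5) = g (r : ℤ) + g ((r : ℤ) - 1) := by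
  decide

theorem h5_rec (t : ℤ) : h5 t + h5 (t - 5) = g t + g (t - 1) := by
  rcases lt_or_ge t 0 with h | h
  · rw [h5_neg h, h5_neg (t := t - 5) (by omega), g_neg h, g_neg (t := t - 1) (by omega)]
  have key : ∀ m : ℕ, ∀ r : ℕ, 5 ≤ r → r < 65 →
      h5 ((r : ℤ) + 60 * m) + h5 ((r : ℤ) + 60 * m - 5) = g ((r : ℤ) + 60 * m) + g ((r : ℤ) + 60 * m - 1) := by
    intro m
    induction m with
    | zero =>
      intro r _ h2
      simpa using rec_base r h2
    | succ m ih =>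
      intro r h1 h2
      have := ih r h1 h2
      have e0 : (r : ℤ) + 60 * ((m + 1 : ℕ) : ℤ) = ((r : ℤ) + 60 * m) + 60 := by push_cast; ring
      have e1 : (r : ℤ) + 60 * ((m + 1 : ℕ) : ℤ) - 5 = ((r : ℤ) + 60 * m - 5) + 60 := by
        push_cast; ring
      have e2 : (r : ℤ) + 60 * ((m + 1 : ℕ) : ℤ) - 1 = ((r : ℤ) + 60 * m - 1) + 60 := by
        push_cast; ring
      rw [e1, e2, e0, h5_add (by omega), h5_add (by omega), g_add (by omega), g_add (by omega)]
      split_ifs <;> omega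
  rcases lt_or_ge t 65 with h1 | h1
  · have := rec_base t.toNat (by omega)
    rwa [Int.toNat_of_nonneg h] at this
  · have := key ((t - 5) / 60).toNat ((t - 5) % 60 + 5).toNat (by omega) (by omega)
    have e : ((((t - 5) % 60 + 5).toNat : ℕ) : ℤ) + 60 * (((t - 5) / 60).toNat : ℕ) = t := by omega
    rwa [e] at this

/-- signed sum for A at least 5a -/
def c5 (A a t : ℤ) : ℤ :=
  h5 t + h5 (t - A) - h5 (t - A - a) + h5 (t - A - 2 * a) - h5 (t - A - 3 * a) + h5 (t - A - 4 * a) - h5 (t - 2 * A - a) + h5 (t - 2 * A - 2 * a) - 2 * h5 (t - 2 * A - 3 * a) + 2 * h5 (t - 2 * A - 4 * a) - 2 * h5 (t - 2 * A - 5 * a) + h5 (t - 2 * A - 6 * a) - h5 (t - 2 * A - 7 * a)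

theorem c5_nonneg (A a t : ℤ) (ha : a % 2 = 1) (ha0 : 0 < a) (hA : A % 2 = 1) (haA : 5 * a ≤ A) (hbig : 43 ≤ A)
    (ht : 2 * t + 12 ≤ 5 * A + 10 * a) (h0 : 0 ≤ t) : 0 ≤ c5 A a t := by
  unfold c5
  rcases Int.emod_two_eq_zero_or_one t with hp | hp
  · have e0 := h5_even h0 hp
    rcases lt_or_ge (t - A) 0 with h | h1
    · rw [h5_neg h, h5_neg (t := t - A - a) (by omega), h5_neg (t := t - A - 2 * a) (by omega), h5_neg (t := t - A - 3 * a) (by omega), h5_neg (t := t - A - 4 * a) (by omega), h5_neg (t := t - 2 * A - a) (by omega), h5_neg (t := t - 2 * A - 2 * a) (by omega), h5_neg (t := t - 2 * A - 3 * a) (by omega), h5_neg (t := t - 2 * A - 4 * a) (by omega), h5_neg (t := t - 2 * A - 5 * a) (by omega), h5_neg (t := t - 2 * A - 6 * a) (by omega), h5_neg (t := t - 2 * A - 7 * a) (by omega)]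
      omega
    have e1 := h5_odd h1 (by omega)
    rcases lt_or_ge (t - A - a) 0 with h | h2
    · rw [h5_neg h, h5_neg (t := t - A - 2 * a) (by omega), h5_neg (t := t - A - 3 * a) (by omega), h5_neg (t := t - A - 4 * a) (by omega), h5_neg (t := t - 2 * A - a) (by omega), h5_neg (t := t - 2 * A - 2 * a) (by omega), h5_neg (t := t - 2 * A - 3 * a) (by omega), h5_neg (t := t - 2 * A - 4 * a) (by omega), h5_neg (t := t - 2 * A - 5 * a) (by omega), h5_neg (t := t - 2 * A - 6 * a) (by omega), h5_neg (t := t - 2 * A - 7 * a) (by omega)]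
      omega
    have e2 := h5_even h2 (by omega)
    rcases lt_or_ge (t - A - 2 * a) 0 with h | h3
    · rw [h5_neg h, h5_neg (t := t - A - 3 * a) (by omega), h5_neg (t := t - A - 4 * a) (by omega), h5_neg (t := t - 2 * A - a) (by omega), h5_neg (t := t - 2 * A - 2 * a) (by omega), h5_neg (t := t - 2 * A - 3 * a) (by omega), h5_neg (t := t - 2 * A - 4 * a) (by omega), h5_neg (t := t - 2 * A - 5 * a) (by omega), h5_neg (t := t - 2 * A - 6 * a) (by omega), h5_neg (t := t - 2 * A - 7 * a) (by omega)]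
      omega
    have e3 := h5_odd h3 (by omega)
    rcases lt_or_ge (t - A - 3 * a) 0 with h | h4
    · rw [h5_neg h, h5_neg (t := t - A - 4 * a) (by omega), h5_neg (t := t - 2 * A - a) (by omega), h5_neg (t := t - 2 * A - 2 * a) (by omega), h5_neg (t := t - 2 * A - 3 * a) (by omega), h5_neg (t := t - 2 * A - 4 * a) (by omega), h5_neg (t := t - 2 * A - 5 * a) (by omega), h5_neg (t := t - 2 * A - 6 * a) (by omega), h5_neg (t := t - 2 * A - 7 * a) (by omega)]
      omega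
    have e4 := h5_even h4 (by omega)
    rcases lt_or_ge (t - A - 4 * a) 0 with h | h5
    · rw [h5_neg h, h5_neg (t := t - 2 * A - a) (by omega), h5_neg (t := t - 2 * A - 2 * a) (by omega), h5_neg (t := t - 2 * A - 3 * a) (by omega), h5_neg (t := t - 2 * A - 4 * a) (by omega), h5_neg (t := t - 2 * A - 5 * a) (by omega), h5_neg (t := t - 2 * A - 6 * a) (by omega), h5_neg (t := t - 2 * A - 7 * a) (by omega)]
      omega
    have e5 := h5_odd h5 (by omega)
    rcases lt_or_ge (t - 2 * A - a) 0 with h | h6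
    · rw [h5_neg h, h5_neg (t := t - 2 * A - 2 * a) (by omega), h5_neg (t := t - 2 * A - 3 * a) (by omega), h5_neg (t := t - 2 * A - 4 * a) (by omega), h5_neg (t := t - 2 * A - 5 * a) (by omega), h5_neg (t := t - 2 * A - 6 * a) (by omega), h5_neg (t := t - 2 * A - 7 * a) (by omega)]
      omega
    have e6 := h5_odd h6 (by omega)
    rcases lt_or_ge (t - 2 * A - 2 * a) 0 with h | h7
    · rw [h5_neg h, h5_neg (t := t - 2 * A - 3 * a) (by omega), h5_neg (t := t - 2 * A - 4 * a) (by omega), h5_neg (t := t - 2 * A - 5 * a) (by omega), h5_neg (t := t - 2 * A - 6 * a) (by omega), h5_neg (t := t - 2 * A - 7 * a) (by omega)]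
      omega
    have e7 := h5_even h7 (by omega)
    rcases lt_or_ge (t - 2 * A - 3 * a) 0 with h | h8
    · rw [h5_neg h, h5_neg (t := t - 2 * A - 4 * a) (by omega), h5_neg (t := t - 2 * A - 5 * a) (by omega), h5_neg (t := t - 2 * A - 6 * a) (by omega), h5_neg (t := t - 2 * A - 7 * a) (by omega)]
      omega
    have e8 := h5_odd h8 (by omega)
    rcases lt_or_ge (t - 2 * A - 4 * a) 0 with h | h9
    · rw [h5_neg h, h5_neg (t := t - 2 * A - 5 * a) (by omega), h5_neg (t := t - 2 * A - 6 * a) (by omega), h5_neg (t := t - 2 * A - 7 * a) (by omega)]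
      omega
    have e9 := h5_even h9 (by omega)
    rcases lt_or_ge (t - 2 * A - 5 * a) 0 with h | h10
    · rw [h5_neg h, h5_neg (t := t - 2 * A - 6 * a) (by omega), h5_neg (t := t - 2 * A - 7 * a) (by omega)]
      omega
    have e10 := h5_odd h10 (by omega)
    rcases lt_or_ge (t - 2 * A - 6 * a) 0 with h | h11
    · rw [h5_neg h, h5_neg (t := t - 2 * A - 7 * a) (by omega)]
      omega
    have e11 := h5_even h11 (by omega)
    rcases lt_or_ge (t - 2 * A - 7 * a) 0 with h | h12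
    · rw [h5_neg h]
      omega
    have e12 := h5_odd h12 (by omega)
    omega
  · have e0 := h5_odd h0 hp
    rcases lt_or_ge (t - A) 0 with h | h1
    · rw [h5_neg h, h5_neg (t := t - A - a) (by omega), h5_neg (t := t - A - 2 * a) (by omega), h5_neg (t := t - A - 3 * a) (by omega), h5_neg (t := t - A - 4 * a) (by omega), h5_neg (t := t - 2 * A - a) (by omega), h5_neg (t := t - 2 * A - 2 * a) (by omega), h5_neg (t := t - 2 * A - 3 * a) (by omega), h5_neg (t := t - 2 * A - 4 * a) (by omega), h5_neg (t := t - 2 * A - 5 * a) (by omega), h5_neg (t := t - 2 * A - 6 * a) (by omega), h5_neg (t := t - 2 * A - 7 * a) (by omega)]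
      omega
    have e1 := h5_even h1 (by omega)
    rcases lt_or_ge (t - A - a) 0 with h | h2
    · rw [h5_neg h, h5_neg (t := t - A - 2 * a) (by omega), h5_neg (t := t - A - 3 * a) (by omega), h5_neg (t := t - A - 4 * a) (by omega), h5_neg (t := t - 2 * A - a) (by omega), h5_neg (t := t - 2 * A - 2 * a) (by omega), h5_neg (t := t - 2 * A - 3 * a) (by omega), h5_neg (t := t - 2 * A - 4 * a) (by omega), h5_neg (t := t - 2 * A - 5 * a) (by omega), h5_neg (t := t - 2 * A - 6 * a) (by omega), h5_neg (t := t - 2 * A - 7 * a) (by omega)]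
      omega
    have e2 := h5_odd h2 (by omega)
    rcases lt_or_ge (t - A - 2 * a) 0 with h | h3
    · rw [h5_neg h, h5_neg (t := t - A - 3 * a) (by omega), h5_neg (t := t - A - 4 * a) (by omega), h5_neg (t := t - 2 * A - a) (by omega), h5_neg (t := t - 2 * A - 2 * a) (by omega), h5_neg (t := t - 2 * A - 3 * a) (by omega), h5_neg (t := t - 2 * A - 4 * a) (by omega), h5_neg (t := t - 2 * A - 5 * a) (by omega), h5_neg (t := t - 2 * A - 6 * a) (by omega), h5_neg (t := t - 2 * A - 7 * a) (by omega)]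
      omega
    have e3 := h5_even h3 (by omega)
    rcases lt_or_ge (t - A - 3 * a) 0 with h | h4
    · rw [h5_neg h, h5_neg (t := t - A - 4 * a) (by omega), h5_neg (t := t - 2 * A - a) (by omega), h5_neg (t := t - 2 * A - 2 * a) (by omega), h5_neg (t := t - 2 * A - 3 * a) (by omega), h5_neg (t := t - 2 * A - 4 * a) (by omega), h5_neg (t := t - 2 * A - 5 * a) (by omega), h5_neg (t := t - 2 * A - 6 * a) (by omega), h5_neg (t := t - 2 * A - 7 * a) (by omega)]
      omega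
    have e4 := h5_odd h4 (by omega)
    rcases lt_or_ge (t - A - 4 * a) 0 with h | h5
    · rw [h5_neg h, h5_neg (t := t - 2 * A - a) (by omega), h5_neg (t := t - 2 * A - 2 * a) (by omega), h5_neg (t := t - 2 * A - 3 * a) (by omega), h5_neg (t := t - 2 * A - 4 * a) (by omega), h5_neg (t := t - 2 * A - 5 * a) (by omega), h5_neg (t := t - 2 * A - 6 * a) (by omega), h5_neg (t := t - 2 * A - 7 * a) (by omega)]
      omega
    have e5 := h5_even h5 (by omega)
    rcases lt_or_ge (t - 2 * A - a) 0 with h | h6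
    · rw [h5_neg h, h5_neg (t := t - 2 * A - 2 * a) (by omega), h5_neg (t := t - 2 * A - 3 * a) (by omega), h5_neg (t := t - 2 * A - 4 * a) (by omega), h5_neg (t := t - 2 * A - 5 * a) (by omega), h5_neg (t := t - 2 * A - 6 * a) (by omega), h5_neg (t := t - 2 * A - 7 * a) (by omega)]
      omega
    have e6 := h5_even h6 (by omega)
    rcases lt_or_ge (t - 2 * A - 2 * a) 0 with h | h7
    · rw [h5_neg h, h5_neg (t := t - 2 * A - 3 * a) (by omega), h5_neg (t := t - 2 * A - 4 * a) (by omega), h5_neg (t := t - 2 * A - 5 * a) (by omega), h5_neg (t := t - 2 * A - 6 * a) (by omega), h5_neg (t := t - 2 * A - 7 * a) (by omega)]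
      omega
    have e7 := h5_odd h7 (by omega)
    rcases lt_or_ge (t - 2 * A - 3 * a) 0 with h | h8
    · rw [h5_neg h, h5_neg (t := t - 2 * A - 4 * a) (by omega), h5_neg (t := t - 2 * A - 5 * a) (by omega), h5_neg (t := t - 2 * A - 6 * a) (by omega), h5_neg (t := t - 2 * A - 7 * a) (by omega)]
      omega
    have e8 := h5_even h8 (by omega)
    rcases lt_or_ge (t - 2 * A - 4 * a) 0 with h | h9
    · rw [h5_neg h, h5_neg (t := t - 2 * A - 5 * a) (by omega), h5_neg (t := t - 2 * A - 6 * a) (by omega), h5_neg (t := t - 2 * A - 7 * a) (by omega)]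
      omega
    have e9 := h5_odd h9 (by omega)
    rcases lt_or_ge (t - 2 * A - 5 * a) 0 with h | h10
    · rw [h5_neg h, h5_neg (t := t - 2 * A - 6 * a) (by omega), h5_neg (t := t - 2 * A - 7 * a) (by omega)]
      omega
    have e10 := h5_even h10 (by omega)
    rcases lt_or_ge (t - 2 * A - 6 * a) 0 with h | h11
    · rw [h5_neg h, h5_neg (t := t - 2 * A - 7 * a) (by omega)]
      omega
    have e11 := h5_odd h11 (by omega)
    rcases lt_or_ge (t - 2 * A - 7 * a) 0 with h | h12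
    · rw [h5_neg h]
      omega
    have e12 := h5_even h12 (by omega)
    omega

/-- signed sum for A = a -/
def c5a (a t : ℤ) : ℤ :=
  h5 t + h5 (t - a) - h5 (t - 2 * a) - h5 (t - 5 * a) + h5 (t - 6 * a) - h5 (t - 7 * a)

theorem c5a_nonneg (a t : ℤ) (ha : a % 2 = 1) (hbig : 5 ≤ a)
    (ht : 2 * t + 12 ≤ 15 * a) (h0 : 0 ≤ t) : 0 ≤ c5a a t := by
  unfold c5a
  rcases Int.emod_two_eq_zero_or_one t with hp | hp
  · have e0 := h5_even h0 hp
    rcases lt_or_ge (t - a) 0 with h | h1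
    · rw [h5_neg h, h5_neg (t := t - 2 * a) (by omega), h5_neg (t := t - 5 * a) (by omega), h5_neg (t := t - 6 * a) (by omega), h5_neg (t := t - 7 * a) (by omega)]
      omega
    have e1 := h5_odd h1 (by omega)
    rcases lt_or_ge (t - 2 * a) 0 with h | h2
    · rw [h5_neg h, h5_neg (t := t - 5 * a) (by omega), h5_neg (t := t - 6 * a) (by omega), h5_neg (t := t - 7 * a) (by omega)]
      omega
    have e2 := h5_even h2 (by omega)
    rcases lt_or_ge (t - 5 * a) 0 with h | h3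
    · rw [h5_neg h, h5_neg (t := t - 6 * a) (by omega), h5_neg (t := t - 7 * a) (by omega)]
      omega
    have e3 := h5_odd h3 (by omega)
    rcases lt_or_ge (t - 6 * a) 0 with h | h4
    · rw [h5_neg h, h5_neg (t := t - 7 * a) (by omega)]
      omega
    have e4 := h5_even h4 (by omega)
    rcases lt_or_ge (t - 7 * a) 0 with h | h5
    · rw [h5_neg h]
      omega
    have e5 := h5_odd h5 (by omega)
    omega
  · have e0 := h5_odd h0 hp
    rcases lt_or_ge (t - a) 0 with h | h1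
    · rw [h5_neg h, h5_neg (t := t - 2 * a) (by omega), h5_neg (t := t - 5 * a) (by omega), h5_neg (t := t - 6 * a) (by omega), h5_neg (t := t - 7 * a) (by omega)]
      omega
    have e1 := h5_even h1 (by omega)
    rcases lt_or_ge (t - 2 * a) 0 with h | h2
    · rw [h5_neg h, h5_neg (t := t - 5 * a) (by omega), h5_neg (t := t - 6 * a) (by omega), h5_neg (t := t - 7 * a) (by omega)]
      omega
    have e2 := h5_odd h2 (by omega)
    rcases lt_or_ge (t - 5 * a) 0 with h | h3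
    · rw [h5_neg h, h5_neg (t := t - 6 * a) (by omega), h5_neg (t := t - 7 * a) (by omega)]
      omega
    have e3 := h5_even h3 (by omega)
    rcases lt_or_ge (t - 6 * a) 0 with h | h4
    · rw [h5_neg h, h5_neg (t := t - 7 * a) (by omega)]
      omega
    have e4 := h5_odd h4 (by omega)
    rcases lt_or_ge (t - 7 * a) 0 with h | h5
    · rw [h5_neg h]
      omega
    have e5 := h5_even h5 (by omega)
    omega

/-- signed sum for A = 3a -/
def c5b (a t : ℤ) : ℤ :=
  h5 t + h5 (t - 3 * a) - h5 (t - 4 * a) + h5 (t - 5 * a) - h5 (t - 6 * a) + h5 (t - 8 * a) - 2 * h5 (t - 9 * a) + 2 * h5 (t - 10 * a) - 2 * h5 (t - 11 * a)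

theorem c5b_nonneg (a t : ℤ) (ha : a % 2 = 1) (hbig : 7 ≤ a)
    (ht : 2 * t + 12 ≤ 25 * a) (h0 : 0 ≤ t) : 0 ≤ c5b a t := by
  unfold c5b
  rcases Int.emod_two_eq_zero_or_one t with hp | hp
  · have e0 := h5_even h0 hp
    rcases lt_or_ge (t - 3 * a) 0 with h | h1
    · rw [h5_neg h, h5_neg (t := t - 4 * a) (by omega), h5_neg (t := t - 5 * a) (by omega), h5_neg (t := t - 6 * a) (by omega), h5_neg (t := t - 8 * a) (by omega), h5_neg (t := t - 9 * a) (by omega), h5_neg (t := t - 10 * a) (by omega), h5_neg (t := t - 11 * a) (by omega)]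
      omega
    have e1 := h5_odd h1 (by omega)
    rcases lt_or_ge (t - 4 * a) 0 with h | h2
    · rw [h5_neg h, h5_neg (t := t - 5 * a) (by omega), h5_neg (t := t - 6 * a) (by omega), h5_neg (t := t - 8 * a) (by omega), h5_neg (t := t - 9 * a) (by omega), h5_neg (t := t - 10 * a) (by omega), h5_neg (t := t - 11 * a) (by omega)]
      omega
    have e2 := h5_even h2 (by omega)
    rcases lt_or_ge (t - 5 * a) 0 with h | h3
    · rw [h5_neg h, h5_neg (t := t - 6 * a) (by omega), h5_neg (t := t - 8 * a) (by omega), h5_neg (t := t - 9 * a) (by omega), h5_neg (t := t - 10 * a) (by omega), h5_neg (t := t - 11 * a) (by omega)]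
      omega
    have e3 := h5_odd h3 (by omega)
    rcases lt_or_ge (t - 6 * a) 0 with h | h4
    · rw [h5_neg h, h5_neg (t := t - 8 * a) (by omega), h5_neg (t := t - 9 * a) (by omega), h5_neg (t := t - 10 * a) (by omega), h5_neg (t := t - 11 * a) (by omega)]
      omega
    have e4 := h5_even h4 (by omega)
    rcases lt_or_ge (t - 8 * a) 0 with h | h5
    · rw [h5_neg h, h5_neg (t := t - 9 * a) (by omega), h5_neg (t := t - 10 * a) (by omega), h5_neg (t := t - 11 * a) (by omega)]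
      omega
    have e5 := h5_even h5 (by omega)
    rcases lt_or_ge (t - 9 * a) 0 with h | h6
    · rw [h5_neg h, h5_neg (t := t - 10 * a) (by omega), h5_neg (t := t - 11 * a) (by omega)]
      omega
    have e6 := h5_odd h6 (by omega)
    rcases lt_or_ge (t - 10 * a) 0 with h | h7
    · rw [h5_neg h, h5_neg (t := t - 11 * a) (by omega)]
      omega
    have e7 := h5_even h7 (by omega)
    rcases lt_or_ge (t - 11 * a) 0 with h | h8
    · rw [h5_neg h]
      omega
    have e8 := h5_odd h8 (by omega)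
    omega
  · have e0 := h5_odd h0 hp
    rcases lt_or_ge (t - 3 * a) 0 with h | h1
    · rw [h5_neg h, h5_neg (t := t - 4 * a) (by omega), h5_neg (t := t - 5 * a) (by omega), h5_neg (t := t - 6 * a) (by omega), h5_neg (t := t - 8 * a) (by omega), h5_neg (t := t - 9 * a) (by omega), h5_neg (t := t - 10 * a) (by omega), h5_neg (t := t - 11 * a) (by omega)]
      omega
    have e1 := h5_even h1 (by omega)
    rcases lt_or_ge (t - 4 * a) 0 with h | h2
    · rw [h5_neg h, h5_neg (t := t - 5 * a) (by omega), h5_neg (t := t - 6 * a) (by omega), h5_neg (t := t - 8 * a) (by omega), h5_neg (t := t - 9 * a) (by omega), h5_neg (t := t - 10 * a) (by omega), h5_neg (t := t - 11 * a) (by omega)]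
      omega
    have e2 := h5_odd h2 (by omega)
    rcases lt_or_ge (t - 5 * a) 0 with h | h3
    · rw [h5_neg h, h5_neg (t := t - 6 * a) (by omega), h5_neg (t := t - 8 * a) (by omega), h5_neg (t := t - 9 * a) (by omega), h5_neg (t := t - 10 * a) (by omega), h5_neg (t := t - 11 * a) (by omega)]
      omega
    have e3 := h5_even h3 (by omega)
    rcases lt_or_ge (t - 6 * a) 0 with h | h4
    · rw [h5_neg h, h5_neg (t := t - 8 * a) (by omega), h5_neg (t := t - 9 * a) (by omega), h5_neg (t := t - 10 * a) (by omega), h5_neg (t := t - 11 * a) (by omega)]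
      omega
    have e4 := h5_odd h4 (by omega)
    rcases lt_or_ge (t - 8 * a) 0 with h | h5
    · rw [h5_neg h, h5_neg (t := t - 9 * a) (by omega), h5_neg (t := t - 10 * a) (by omega), h5_neg (t := t - 11 * a) (by omega)]
      omega
    have e5 := h5_odd h5 (by omega)
    rcases lt_or_ge (t - 9 * a) 0 with h | h6
    · rw [h5_neg h, h5_neg (t := t - 10 * a) (by omega), h5_neg (t := t - 11 * a) (by omega)]
      omega
    have e6 := h5_even h6 (by omega)
    rcases lt_or_ge (t - 10 * a) 0 with h | h7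
    · rw [h5_neg h, h5_neg (t := t - 11 * a) (by omega)]
      omega
    have e7 := h5_odd h7 (by omega)
    rcases lt_or_ge (t - 11 * a) 0 with h | h8
    · rw [h5_neg h]
      omega
    have e8 := h5_even h8 (by omega)
    omega

noncomputable def G5 : PowerSeries ℚ := PowerSeries.mk (fun n => ((h5 n : ℤ) : ℚ))

theorem h5_shift (n d : ℕ) :
    (if d ≤ n then ((h5 ((n - d : ℕ) : ℤ) : ℤ) : ℚ) else 0) = ((h5 ((n : ℤ) - d) : ℤ) : ℚ) := by
  split_ifs with h
  · rw [Nat.cast_sub h]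
  · rw [h5_neg (by omega)]; simp

theorem coeff_G5_shift (n d : ℕ) :
    PowerSeries.coeff n (G5 * PowerSeries.X ^ d) = ((h5 ((n : ℤ) - d) : ℤ) : ℚ) := by
  rw [PowerSeries.coeff_mul_X_pow', ← h5_shift]
  simp [G5]

theorem two_mul_coeff (n : ℕ) (Q : PowerSeries ℚ) :
    PowerSeries.coeff n (2 * Q) = 2 * PowerSeries.coeff n Q := by
  rw [two_mul, two_mul, map_add]

theorem G5_mul : G5 * (1 + PowerSeries.X ^ 5) = G * (1 + PowerSeries.X) := by
  have e : G5 * (1 + PowerSeries.X ^ 5) = G5 * PowerSeries.X ^ 0 + G5 * PowerSeries.X ^ 5 := by ring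
  have e' : G * (1 + PowerSeries.X) = G * PowerSeries.X ^ 0 + G * PowerSeries.X ^ 1 := by ring
  rw [e, e']
  ext n
  simp only [map_add, coeff_G5_shift, coeff_G_shift]
  have h := h5_rec (n : ℤ)
  have h' := congrArg (fun z : ℤ => (z : ℚ)) h
  push_cast at h'
  simpa using h'

theorem series_eq (F N : ℚ[X])
    (hF : F * ((1 - X ^ 4) * (1 - X ^ 6) * (1 + X ^ 5)) = (1 + X) * (1 + X + X ^ 2) * N) :
    (F : PowerSeries ℚ) = G5 * (N : PowerSeries ℚ) := by
  have h1 := congrArg (fun p : ℚ[X] => (p : PowerSeries ℚ)) hF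
  simp only [coe_mul, coe_add, coe_sub, coe_one, coe_pow, coe_X] at h1
  have hne : ((1 - PowerSeries.X ^ 4) * (1 - PowerSeries.X ^ 6) * (1 + PowerSeries.X ^ 5)
      : PowerSeries ℚ) ≠ 0 := by
    intro h0
    have := congrArg (fun p : PowerSeries ℚ => PowerSeries.coeff 0 p) h0
    simp at this
  apply mul_right_cancel₀ hne
  rw [h1]
  have h2 : G5 * ((1 - PowerSeries.X ^ 4) * (1 - PowerSeries.X ^ 6) * (1 + PowerSeries.X ^ 5))
      = (1 + PowerSeries.X) * (1 + PowerSeries.X + PowerSeries.X ^ 2) := by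
    calc _ = (G5 * (1 + PowerSeries.X ^ 5)) * ((1 - PowerSeries.X ^ 4) * (1 - PowerSeries.X ^ 6)) := by
          ring
      _ = (1 + PowerSeries.X) * (G * ((1 - PowerSeries.X ^ 4) * (1 - PowerSeries.X ^ 6))) := by
          rw [G5_mul]; ring
      _ = _ := by rw [G_mul]
  calc _ = (G5 * ((1 - PowerSeries.X ^ 4) * (1 - PowerSeries.X ^ 6) * (1 + PowerSeries.X ^ 5)))
        * (N : PowerSeries ℚ) := by rw [h2]
    _ = _ := by ring

theorem coeff_gen (A a : ℕ) (F : ℚ[X])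
    (hF : F * ((1 - X ^ 4) * (1 - X ^ 6) * (1 + X ^ 5)) = (1 + X) * (1 + X + X ^ 2) *
      ((1 + X ^ (A)) * (1 - X ^ (A + a)) * (1 + X ^ (A + 2 * a))
        * (1 - X ^ (A + 3 * a)) * (1 + X ^ (A + 4 * a)))) (t : ℕ) (ht : t < 3 * A + 3 * a) :
    F.coeff t = ((c5 A a t : ℤ) : ℚ) := by
  have h2 := series_eq F _ hF
  simp only [coe_mul, coe_add, coe_sub, coe_one, coe_pow, coe_X] at h2
  have h3 : (F : PowerSeries ℚ) = G5 * PowerSeries.X ^ (0)
      + G5 * PowerSeries.X ^ (A)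
      - G5 * PowerSeries.X ^ (A + a)
      + G5 * PowerSeries.X ^ (A + 2 * a)
      - G5 * PowerSeries.X ^ (A + 3 * a)
      + G5 * PowerSeries.X ^ (A + 4 * a)
      - G5 * PowerSeries.X ^ (2 * A + a)
      + G5 * PowerSeries.X ^ (2 * A + 2 * a)
      - 2 * (G5 * PowerSeries.X ^ (2 * A + 3 * a))
      + 2 * (G5 * PowerSeries.X ^ (2 * A + 4 * a))
      - 2 * (G5 * PowerSeries.X ^ (2 * A + 5 * a))
      + G5 * PowerSeries.X ^ (2 * A + 6 * a)
      - G5 * PowerSeries.X ^ (2 * A + 7 * a)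
      + (G5 * (-(1) + PowerSeries.X ^ a - 2 * PowerSeries.X ^ (2 * a) + 2 * PowerSeries.X ^ (3 * a) - 2 * PowerSeries.X ^ (4 * a) + PowerSeries.X ^ (5 * a) - PowerSeries.X ^ (6 * a) + PowerSeries.X ^ A * PowerSeries.X ^ (3 * a) - PowerSeries.X ^ A * PowerSeries.X ^ (4 * a) + PowerSeries.X ^ A * PowerSeries.X ^ (5 * a) - PowerSeries.X ^ A * PowerSeries.X ^ (6 * a) + PowerSeries.X ^ A * PowerSeries.X ^ (7 * a) + PowerSeries.X ^ (2 * A) * PowerSeries.X ^ (7 * a))) * PowerSeries.X ^ (3 * A + 3 * a) := by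
    rw [h2]
    ring
  have h4 : F.coeff t = PowerSeries.coeff t (F : PowerSeries ℚ) := by rw [Polynomial.coeff_coe]
  rw [h4, h3]
  have h5 : ∀ Q : PowerSeries ℚ, PowerSeries.coeff t (Q * PowerSeries.X ^ (3 * A + 3 * a)) = 0 := by
    intro Q
    rw [PowerSeries.coeff_mul_X_pow', if_neg (by omega)]
  simp only [map_add, map_sub, two_mul_coeff, coeff_G5_shift, h5]
  unfold c5
  push_cast
  have e1 : ((t : ℤ) - (A + a)) = t - A - a := by ring
  have e2 : ((t : ℤ) - (A + 2 * a)) = t - A - 2 * a := by ring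
  have e3 : ((t : ℤ) - (A + 3 * a)) = t - A - 3 * a := by ring
  have e4 : ((t : ℤ) - (A + 4 * a)) = t - A - 4 * a := by ring
  have e5 : ((t : ℤ) - (2 * A + a)) = t - 2 * A - a := by ring
  have e6 : ((t : ℤ) - (2 * A + 2 * a)) = t - 2 * A - 2 * a := by ring
  have e7 : ((t : ℤ) - (2 * A + 3 * a)) = t - 2 * A - 3 * a := by ring
  have e8 : ((t : ℤ) - (2 * A + 4 * a)) = t - 2 * A - 4 * a := by ring
  have e9 : ((t : ℤ) - (2 * A + 5 * a)) = t - 2 * A - 5 * a := by ring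
  have e10 : ((t : ℤ) - (2 * A + 6 * a)) = t - 2 * A - 6 * a := by ring
  have e11 : ((t : ℤ) - (2 * A + 7 * a)) = t - 2 * A - 7 * a := by ring
  simp only [e1, e2, e3, e4, e5, e6, e7, e8, e9, e10, e11, sub_zero, add_zero]

theorem coeff_one (a : ℕ) (F : ℚ[X])
    (hF : F * ((1 - X ^ 4) * (1 - X ^ 6) * (1 + X ^ 5)) = (1 + X) * (1 + X + X ^ 2) *
      ((1 + X ^ (a)) * (1 - X ^ (2 * a)) * (1 + X ^ (3 * a))
        * (1 - X ^ (4 * a)) * (1 + X ^ (5 * a)))) (t : ℕ) (ht : t < 8 * a) :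
    F.coeff t = ((c5a a t : ℤ) : ℚ) := by
  have h2 := series_eq F _ hF
  simp only [coe_mul, coe_add, coe_sub, coe_one, coe_pow, coe_X] at h2
  have h3 : (F : PowerSeries ℚ) = G5 * PowerSeries.X ^ (0)
      + G5 * PowerSeries.X ^ (a)
      - G5 * PowerSeries.X ^ (2 * a)
      - G5 * PowerSeries.X ^ (5 * a)
      + G5 * PowerSeries.X ^ (6 * a)
      - G5 * PowerSeries.X ^ (7 * a)
      + (G5 * (-(1) + PowerSeries.X ^ a - PowerSeries.X ^ (2 * a) - PowerSeries.X ^ (5 * a) + PowerSeries.X ^ (6 * a) + PowerSeries.X ^ (7 * a))) * PowerSeries.X ^ (8 * a) := by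
    rw [h2]
    ring
  have h4 : F.coeff t = PowerSeries.coeff t (F : PowerSeries ℚ) := by rw [Polynomial.coeff_coe]
  rw [h4, h3]
  have h5 : ∀ Q : PowerSeries ℚ, PowerSeries.coeff t (Q * PowerSeries.X ^ (8 * a)) = 0 := by
    intro Q
    rw [PowerSeries.coeff_mul_X_pow', if_neg (by omega)]
  simp only [map_add, map_sub, coeff_G5_shift, h5]
  unfold c5a
  push_cast
  simp only [sub_zero, add_zero]

theorem coeff_three (a : ℕ) (F : ℚ[X])
    (hF : F * ((1 - X ^ 4) * (1 - X ^ 6) * (1 + X ^ 5)) = (1 + X) * (1 + X + X ^ 2) *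
      ((1 + X ^ (3 * a)) * (1 - X ^ (4 * a)) * (1 + X ^ (5 * a))
        * (1 - X ^ (6 * a)) * (1 + X ^ (7 * a)))) (t : ℕ) (ht : t < 13 * a) :
    F.coeff t = ((c5b a t : ℤ) : ℚ) := by
  have h2 := series_eq F _ hF
  simp only [coe_mul, coe_add, coe_sub, coe_one, coe_pow, coe_X] at h2
  have h3 : (F : PowerSeries ℚ) = G5 * PowerSeries.X ^ (0)
      + G5 * PowerSeries.X ^ (3 * a)
      - G5 * PowerSeries.X ^ (4 * a)
      + G5 * PowerSeries.X ^ (5 * a)
      - G5 * PowerSeries.X ^ (6 * a)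
      + G5 * PowerSeries.X ^ (8 * a)
      - 2 * (G5 * PowerSeries.X ^ (9 * a))
      + 2 * (G5 * PowerSeries.X ^ (10 * a))
      - 2 * (G5 * PowerSeries.X ^ (11 * a))
      + (G5 * (-(2 * PowerSeries.X ^ a) + 2 * PowerSeries.X ^ (2 * a) - 2 * PowerSeries.X ^ (3 * a) + PowerSeries.X ^ (4 * a) - PowerSeries.X ^ (6 * a) + PowerSeries.X ^ (7 * a) - PowerSeries.X ^ (8 * a) + PowerSeries.X ^ (9 * a) + PowerSeries.X ^ (12 * a))) * PowerSeries.X ^ (13 * a) := by
    rw [h2]
    ring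
  have h4 : F.coeff t = PowerSeries.coeff t (F : PowerSeries ℚ) := by rw [Polynomial.coeff_coe]
  rw [h4, h3]
  have h5 : ∀ Q : PowerSeries ℚ, PowerSeries.coeff t (Q * PowerSeries.X ^ (13 * a)) = 0 := by
    intro Q
    rw [PowerSeries.coeff_mul_X_pow', if_neg (by omega)]
  simp only [map_add, map_sub, two_mul_coeff, coeff_G5_shift, h5]
  unfold c5b
  push_cast
  simp only [sub_zero, add_zero]

theorem num_eq5 (f : ℕ → ℚ[X]) : ∏ v ∈ Finset.Icc 1 5, f v = f 1 * f 2 * f 3 * f 4 * f 5 := by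
  rw [show Finset.Icc 1 5 = {1, 2, 3, 4, 5} from rfl]
  simp
  ring

theorem den_eq5 : ∏ v ∈ Finset.Icc 1 5, (1 - (-X : ℚ[X]) ^ v)
    = (1 + X) * (1 - X ^ 2) * (1 + X ^ 3) * (1 - X ^ 4) * (1 + X ^ 5) := by
  rw [num_eq5]
  ring

theorem num_expand5 (n a : ℕ) (ha : Odd a) (h : Odd (a * (n + 1))) :
    ∏ v ∈ Finset.Icc 1 5, (1 - (-X : ℚ[X]) ^ (a * (n + v))) =
      (1 + X ^ (a * (n + 1))) * (1 - X ^ (a * (n + 1) + a)) * (1 + X ^ (a * (n + 1) + 2 * a))
        * (1 - X ^ (a * (n + 1) + 3 * a)) * (1 + X ^ (a * (n + 1) + 4 * a)) := by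
  rw [num_eq5]
  have e2 : a * (n + 2) = a * (n + 1) + a := by ring
  have e3 : a * (n + 3) = a * (n + 1) + 2 * a := by ring
  have e4 : a * (n + 4) = a * (n + 1) + 3 * a := by ring
  have e5 : a * (n + 5) = a * (n + 1) + 4 * a := by ring
  rw [e2, e3, e4, e5]
  set A := a * (n + 1) with hA
  have o2 : Even (A + a) := h.add_odd ha
  have o3 : Odd (A + 2 * a) := h.add_even (even_two_mul a)
  have o4 : Even (A + 3 * a) := h.add_odd (Odd.mul (by decide) ha)
  have o5 : Odd (A + 4 * a) := h.add_even (Even.mul_right (by decide) a)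
  rw [h.neg_pow, o2.neg_pow, o3.neg_pow, o4.neg_pow, o5.neg_pow]
  simp

theorem natDegree_one_add (m : ℕ) (_hm : 0 < m) : (1 + X ^ m : ℚ[X]).natDegree = m := by
  have h : (1 + X ^ m : ℚ[X]) = X ^ m + C 1 := by simp [add_comm]
  rw [h]; exact natDegree_X_pow_add_C

theorem natDegree_one_sub (m : ℕ) (_hm : 0 < m) : (1 - X ^ m : ℚ[X]).natDegree = m := by
  have h : (1 - X ^ m : ℚ[X]) = -(X ^ m - C 1) := by simp
  rw [h, natDegree_neg]; exact natDegree_X_pow_sub_C

theorem one_add_ne (m : ℕ) (hm : 0 < m) : (1 + X ^ m : ℚ[X]) ≠ 0 := by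
  intro h0
  have := congrArg (fun p : ℚ[X] => p.coeff 0) h0
  simp [hm.ne] at this

theorem one_sub_ne (m : ℕ) (hm : 0 < m) : (1 - X ^ m : ℚ[X]) ≠ 0 := by
  intro h0
  have := congrArg (fun p : ℚ[X] => p.coeff 0) h0
  simp [hm.ne] at this

theorem key5 (A a : ℕ) (hA : 0 < A) (F : ℚ[X])
    (hF : F * ((1 - X ^ 4) * (1 - X ^ 6) * (1 + X ^ 5)) = (1 + X) * (1 + X + X ^ 2) *
      ((1 + X ^ A) * (1 - X ^ (A + a)) * (1 + X ^ (A + 2 * a)) * (1 - X ^ (A + 3 * a))
        * (1 + X ^ (A + 4 * a)))) :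
    F.reverse = F ∧ F.natDegree + 12 = 5 * A + 10 * a := by
  have e3 : (1 + X + X ^ 2 : ℚ[X]).natDegree = 2 := by compute_degree!
  have e30 : (1 + X + X ^ 2 : ℚ[X]) ≠ 0 := by
    intro h0; rw [h0] at e3; simp at e3
  have r1 : (1 + X : ℚ[X]).reverse = 1 + X := by simpa using reverse_one_add_pow 1
  have d1 : (1 + X : ℚ[X]).natDegree = 1 := by simpa using natDegree_one_add 1 (by norm_num)
  have n1 : (1 + X : ℚ[X]) ≠ 0 := by simpa using one_add_ne 1 (by norm_num)
  have q1 := one_add_ne A hA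
  have q2 := one_sub_ne (A + a) (by omega)
  have q3 := one_add_ne (A + 2 * a) (by omega)
  have q4 := one_sub_ne (A + 3 * a) (by omega)
  have q5 := one_add_ne (A + 4 * a) (by omega)
  have p4 := one_sub_ne 4 (by norm_num)
  have p6 := one_sub_ne 6 (by norm_num)
  have p5 := one_add_ne 5 (by norm_num)
  have hne : ((1 - X ^ 4) * (1 - X ^ 6) * (1 + X ^ 5) : ℚ[X]) ≠ 0 :=
    mul_ne_zero (mul_ne_zero p4 p6) p5
  have hP : ((1 + X ^ A) * (1 - X ^ (A + a)) * (1 + X ^ (A + 2 * a)) * (1 - X ^ (A + 3 * a))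
        * (1 + X ^ (A + 4 * a)) : ℚ[X]) ≠ 0 :=
    mul_ne_zero (mul_ne_zero (mul_ne_zero (mul_ne_zero q1 q2) q3) q4) q5
  have hF0 : F ≠ 0 := by
    rintro rfl
    rw [zero_mul] at hF
    exact mul_ne_zero (mul_ne_zero n1 e30) hP hF.symm
  constructor
  · have h1 := congrArg reverse hF
    simp only [reverse_mul_of_domain] at h1
    rw [reverse_one_sub_pow 4 (by norm_num), reverse_one_sub_pow 6 (by norm_num),
      reverse_one_add_pow 5, r1, reverse_three, reverse_one_add_pow A,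
      reverse_one_sub_pow (A + a) (by omega), reverse_one_add_pow (A + 2 * a),
      reverse_one_sub_pow (A + 3 * a) (by omega), reverse_one_add_pow (A + 4 * a)] at h1
    have h2 : F.reverse * ((1 - X ^ 4) * (1 - X ^ 6) * (1 + X ^ 5))
        = F * ((1 - X ^ 4) * (1 - X ^ 6) * (1 + X ^ 5)) := by
      rw [hF]
      calc _ = F.reverse * (-(1 - X ^ 4) * -(1 - X ^ 6) * (1 + X ^ 5)) := by ring
        _ = _ := h1
        _ = _ := by ring
    exact mul_right_cancel₀ hne h2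
  · have h1 := congrArg natDegree hF
    rw [natDegree_mul hF0 hne, natDegree_mul (mul_ne_zero p4 p6) p5, natDegree_mul p4 p6,
      natDegree_mul (mul_ne_zero n1 e30) hP, natDegree_mul n1 e30,
      natDegree_mul (mul_ne_zero (mul_ne_zero (mul_ne_zero q1 q2) q3) q4) q5,
      natDegree_mul (mul_ne_zero (mul_ne_zero q1 q2) q3) q4,
      natDegree_mul (mul_ne_zero q1 q2) q3, natDegree_mul q1 q2,
      natDegree_one_sub 4 (by norm_num), natDegree_one_sub 6 (by norm_num),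
      natDegree_one_add 5 (by norm_num), d1, e3, natDegree_one_add A hA,
      natDegree_one_sub (A + a) (by omega), natDegree_one_add (A + 2 * a) (by omega),
      natDegree_one_sub (A + 3 * a) (by omega), natDegree_one_add (A + 4 * a) (by omega)] at h1
    omega

theorem nonneg_half5 (A a : ℕ) (hA : 0 < A) (F : ℚ[X])
    (hF : F * ((1 - X ^ 4) * (1 - X ^ 6) * (1 + X ^ 5)) = (1 + X) * (1 + X + X ^ 2) *
      ((1 + X ^ A) * (1 - X ^ (A + a)) * (1 + X ^ (A + 2 * a)) * (1 - X ^ (A + 3 * a))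
        * (1 + X ^ (A + 4 * a))))
    (small : ∀ t : ℕ, 2 * t + 12 ≤ 5 * A + 10 * a → 0 ≤ F.coeff t) (i : ℕ) :
    0 ≤ F.coeff i := by
  obtain ⟨hr, hd⟩ := key5 A a hA F hF
  by_cases h1 : 2 * i + 12 ≤ 5 * A + 10 * a
  · exact small i h1
  · by_cases h2 : i ≤ F.natDegree
    · rw [← hr, coeff_reverse, revAt_le h2]
      exact small _ (by omega)
    · rw [coeff_eq_zero_of_natDegree_lt (by omega)]

def chk5 (A a : ℕ) : Bool :=
  (List.range (3 * A + 3 * a)).all fun t =>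
    !(decide (2 * t + 12 ≤ 5 * A + 10 * a)) || decide (0 ≤ c5 (A : ℤ) (a : ℤ) (t : ℤ))

theorem chk5_all : (List.range 9).all (fun a => (List.range 43).all fun N =>
    !(decide (a * N < 43 ∧ a % 2 = 1 ∧ N % 2 = 1 ∧ 5 ≤ N)) || chk5 (a * N) a) = true := by
  decide +kernel

theorem c5_small (a N : ℕ) (h1 : a * N < 43) (h2 : a % 2 = 1) (h3 : N % 2 = 1) (h4 : 5 ≤ N)
    (t : ℕ) (ht : 2 * t + 12 ≤ 5 * (a * N) + 10 * a) :
    0 ≤ c5 ((a * N : ℕ) : ℤ) (a : ℤ) (t : ℤ) := by
  have hN' : N ≤ a * N := Nat.le_mul_of_pos_left N (by omega)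
  have ha' : a * 5 ≤ a * N := Nat.mul_le_mul_left a h4
  have ha : a < 9 := by omega
  have hN : N < 43 := by omega
  have h := chk5_all
  rw [List.all_eq_true] at h
  have h' := h a (List.mem_range.2 ha)
  rw [List.all_eq_true] at h'
  have h'' := h' N (List.mem_range.2 hN)
  rw [decide_eq_true (⟨h1, h2, h3, h4⟩ : _ ∧ _ ∧ _ ∧ _)] at h''
  have h3' : chk5 (a * N) a = true := by simpa using h''
  unfold chk5 at h3'
  rw [List.all_eq_true] at h3'
  have := h3' t (List.mem_range.2 (by omega))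
  simpa [ht] using this

theorem c5a_small : ∀ a : ℕ, a < 5 → ∀ t : ℕ, t < 32 → a % 2 = 1 → 2 * t + 12 ≤ 15 * a →
    0 ≤ c5a (a : ℤ) (t : ℤ) := by
  decide +kernel

theorem c5b_small : ∀ a : ℕ, a < 7 → ∀ t : ℕ, t < 80 → a % 2 = 1 → 2 * t + 12 ≤ 25 * a →
    0 ≤ c5b (a : ℤ) (t : ℤ) := by
  decide +kernel

theorem nonneg5 (n a : ℕ) (hn : Even n) (ha : Odd a) (i : ℕ) :
    0 ≤ (((1 + Polynomial.X : Polynomial ℚ) ^ ((5 + 1) / 2) *
          ∏ v ∈ Finset.Icc 1 5, (1 - (-Polynomial.X : Polynomial ℚ) ^ (a * (n + v)))) /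
        ∏ v ∈ Finset.Icc 1 5, (1 - (-Polynomial.X : Polynomial ℚ) ^ v)).coeff i := by
  obtain ⟨F', hF'⟩ := dvd_all (-X : ℚ[X]) 5 n a
  have hD : (∏ v ∈ Finset.Icc 1 5, (1 - (-X : ℚ[X]) ^ v)) ≠ 0 := by
    intro h0
    have := congrArg (fun p : ℚ[X] => p.coeff 0) h0
    rw [den_eq5] at this
    simp [mul_coeff_zero] at this
  have hq : ((1 + X : ℚ[X]) ^ ((5 + 1) / 2) * ∏ v ∈ Finset.Icc 1 5, (1 - (-X : ℚ[X]) ^ (a * (n + v)))) /
        ∏ v ∈ Finset.Icc 1 5, (1 - (-X : ℚ[X]) ^ v) = (1 + X) ^ 3 * F' := by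
    rw [hF', show (5 + 1) / 2 = 3 from rfl,
      show (1 + X : ℚ[X]) ^ 3 * ((∏ v ∈ Finset.Icc 1 5, (1 - (-X : ℚ[X]) ^ v)) * F')
        = (∏ v ∈ Finset.Icc 1 5, (1 - (-X : ℚ[X]) ^ v)) * ((1 + X) ^ 3 * F') by ring,
      mul_div_cancel_left₀ _ hD]
  rw [hq]
  have ha0 : 0 < a := ha.pos
  have hA : 0 < a * (n + 1) := Nat.mul_pos ha0 (Nat.succ_pos n)
  have ha2 : a % 2 = 1 := Nat.odd_iff.1 ha
  have hn1 : Odd (n + 1) := hn.add_one
  have ho : Odd (a * (n + 1)) := ha.mul hn1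
  have ho2 : (a * (n + 1)) % 2 = 1 := Nat.odd_iff.1 ho
  have main : ((1 + X) ^ 3 * F') * ((1 - X ^ 4) * (1 - X ^ 6) * (1 + X ^ 5)) =
      (1 + X) * (1 + X + X ^ 2) *
      ((1 + X ^ (a * (n + 1))) * (1 - X ^ (a * (n + 1) + a)) * (1 + X ^ (a * (n + 1) + 2 * a))
        * (1 - X ^ (a * (n + 1) + 3 * a)) * (1 + X ^ (a * (n + 1) + 4 * a))) := by
    rw [← num_expand5 n a ha ho, hF', den_eq5]
    ring
  refine nonneg_half5 _ a hA _ main ?_ i
  intro t ht
  have hn2 : n % 2 = 0 := Nat.even_iff.1 hn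
  rcases (by omega : n = 0 ∨ n = 2 ∨ 4 ≤ n) with h0 | h2 | h4
  · subst h0
    simp only [zero_add, mul_one] at main ht
    rw [coeff_one a _ (by
      rw [main]
      ring) t (by omega)]
    rcases lt_or_ge a 5 with h | h
    · exact_mod_cast c5a_small a h t (by omega) ha2 (by omega)
    · exact_mod_cast c5a_nonneg a t (by omega) (by omega) (by omega) (by omega)
  · subst h2
    rw [coeff_three a _ (by
      rw [main]
      ring) t (by omega)]
    rcases lt_or_ge a 7 with h | h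
    · exact_mod_cast c5b_small a h t (by omega) ha2 (by omega)
    · exact_mod_cast c5b_nonneg a t (by omega) (by omega) (by omega) (by omega)
  · have h5 : a * 5 ≤ a * (n + 1) := Nat.mul_le_mul_left a (by omega)
    rw [coeff_gen (a * (n + 1)) a _ main t (by omega)]
    rcases lt_or_ge (a * (n + 1)) 43 with h | h
    · exact_mod_cast c5_small a (n + 1) h ha2 (Nat.odd_iff.1 hn1) (by omega) t ht
    · have := c5_nonneg (((a * (n + 1) : ℕ)) : ℤ) a t (by omega) (by omega) (by omega) (by omega)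
        (by omega) (by omega) (by omega)
      exact_mod_cast this

/-- The cases `k = 4` and `k = 5` of the conjecture, for all `n` with `n k` even and all odd `a`:
the quotient is a polynomial (the division is exact) and all its coefficients are nonnegative. -/
theorem result : ∀ n k a : ℕ, Even (n * k) → Odd a → 3 < k → k ≤ 5 →
    (∏ v ∈ Finset.Icc 1 k, (1 - (-Polynomial.X : Polynomial ℚ) ^ v)) ∣
        ((1 + Polynomial.X : Polynomial ℚ) ^ ((k + 1) / 2) *
          ∏ v ∈ Finset.Icc 1 k, (1 - (-Polynomial.X : Polynomial ℚ) ^ (a * (n + v)))) ∧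
      ∀ i : ℕ,
        0 ≤ (((1 + Polynomial.X : Polynomial ℚ) ^ ((k + 1) / 2) *
              ∏ v ∈ Finset.Icc 1 k, (1 - (-Polynomial.X : Polynomial ℚ) ^ (a * (n + v)))) /
            ∏ v ∈ Finset.Icc 1 k, (1 - (-Polynomial.X : Polynomial ℚ) ^ v)).coeff i := by
  intro n k a hnk ha h3 h5
  refine ⟨Dvd.dvd.mul_left (dvd_all (-Polynomial.X) k n a) _, ?_⟩
  rcases (by omega : k = 4 ∨ k = 5) with rfl | rfl
  · exact nonneg4 n a ha
  · refine nonneg5 n a ?_ ha
    rcases Nat.even_mul.1 hnk with h | h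
    · exact h
    · exact absurd h (by decide)

end Pool.Agent.Results.MP_cf17a0_co.FirstCases
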